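import Mathlib
import Pool.Agent.H11.AspA

namespace H11.Asp

/-- `G` serves the requests `v 0, …, v (t-1)`: pairwise disjoint column sets spanning them. -/
def Serves {F : Type} [Field F] {k n t : ℕ} (G : Matrix (Fin k) (Fin n) F)
    (v : Fin t → Fin k → F) : Prop :=
  ∃ R : Fin t → Finset (Fin n), (∀ i i', i ≠ i' → Disjoint (R i) (R i')) ∧
    ∀ i, v i ∈ Submodule.span F (G.col '' (R i : Set (Fin n)))

def PIR {F : Type} [Field F] {k n : ℕ} (G : Matrix (Fin k) (Fin n) F) (t : ℕ) : Prop :=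
  ∀ j, Serves G (fun _ : Fin t => G.col j)

def Batch {F : Type} [Field F] {k n : ℕ} (G : Matrix (Fin k) (Fin n) F) (t : ℕ) : Prop :=
  ∀ c : Fin t → Fin n, Serves G (fun i => G.col (c i))

noncomputable def ASP (F : Type) [Field F] (k t : ℕ) : ℕ :=
  sInf {n | ∃ G : Matrix (Fin k) (Fin n) F, G.rank = k ∧ PIR G t}

noncomputable def ASB (F : Type) [Field F] (k t : ℕ) : ℕ :=
  sInf {n | ∃ G : Matrix (Fin k) (Fin n) F, G.rank = k ∧ Batch G t}

abbrev V := Fin 3 → ZMod 3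

def cl (u : V) : ℕ :=
  [13, 2, 2, 1, 10, 4, 1, 4, 10, 0, 8, 12, 9, 6, 7, 3, 5, 11, 0, 12, 8, 3, 11, 5, 9, 7, 6].getD
    ((u 0).val * 9 + (u 1).val * 3 + (u 2).val) 0

def ind (u : V) (x : Fin 13) : ℕ := if cl u = x.val then 1 else 0

def W : Fin 13 → V := ![![0, 0, 1], ![1, 0, 0], ![1, 1, 0], ![1, 1, 1], ![0, 1, 1], ![1, 0, 2],
  ![1, 2, 0], ![1, 1, 2], ![1, 2, 2], ![1, 2, 1], ![0, 1, 2], ![1, 0, 1], ![0, 1, 0]]

def off (i : Fin 13) (u : V) : ℕ := if W i ⬝ᵥ u = 0 then 0 else 1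

theorem allV {P : V → Prop} (h : ∀ a b c, P ![a, b, c]) (u : V) : P u := by
  have : u = ![u 0, u 1, u 2] := by ext i; fin_cases i <;> rfl
  rw [this]; exact h _ _ _

theorem sum_ind (u : V) : ∑ x, ind u x = if u = 0 then 0 else 1 := by
  revert u; apply allV; decide +kernel

theorem off_le (i : Fin 13) (u : V) :
    ind u i + ind u (i + 1) + ind u (i + 3) + ind u (i + 9) + off i u ≤ ∑ x, ind u x := by
  revert u; apply allV; revert i; decide +kernel

theorem W_ne (i : Fin 13) : ∃ j, W i ⬝ᵥ Pi.single j 1 ≠ 0 := by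
  revert i; decide +kernel

def Phi (a : Fin 13 → ℕ) (v : Fin 13) : ℕ :=
  ∑ x, a x + 2 * a v + A (a (v + 1)) (a (v + 3)) (a (v + 9))
      + A (a (v + 12)) (a (v + 2)) (a (v + 8)) + A (a (v + 10)) (a (v + 11)) (a (v + 6))
      + A (a (v + 4)) (a (v + 5)) (a (v + 7))

def indN (p : ℕ) (x : Fin 13) : ℕ := if p = x.val then 1 else 0

def good (p q : Fin 14) (v : Fin 13) : Bool :=
  decide (3 ≤ Phi (fun x => indN p x + indN q x) v)

def col3 (p q v : ℕ) : Bool :=
  p == v || q == v || (p != q && p != 13 && q != 13 &&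
    ([0, 1, 3, 9].any fun d => ([0, 1, 3, 9].any fun e => (v + 13 + e - d) % 13 == p) &&
      ([0, 1, 3, 9].any fun e => (v + 13 + e - d) % 13 == q)))

theorem good_of : ∀ p q : Fin 14, ∀ v : Fin 13, col3 p q v = true → good p q v = true := by
  decide +kernel

theorem cl_lt (u : V) : cl u < 14 := by revert u; apply allV; decide +kernel

theorem col3_of (c d : ZMod 3) (u w : V) :
    cl (c • u + d • w) = 13 ∨ col3 (cl u) (cl w) (cl (c • u + d • w)) = true := by
  revert w; apply allV; revert u; apply allV; revert c d; decide +kernel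

theorem pair (c d : ZMod 3) (u w : V) (v : Fin 13) (h : cl (c • u + d • w) = v.val) :
    3 ≤ Phi (fun x => ind u x + ind w x) v := by
  rcases col3_of c d u w with h1 | h1
  · have := v.2; omega
  · rw [h] at h1
    have := good_of ⟨cl u, cl_lt u⟩ ⟨cl w, cl_lt w⟩ v h1
    simp only [good, decide_eq_true_eq] at this
    exact this

theorem ind_zero (x : Fin 13) : ind 0 x = 0 := by revert x; decide +kernel

theorem small {n : ℕ} (g : Fin n → V) (R : Finset (Fin n)) (y : V) (v : Fin 13)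
    (hy : y ∈ Submodule.span (ZMod 3) (g '' (R : Set (Fin n)))) (hv : cl y = v.val) :
    3 ≤ Phi (fun x => ∑ j ∈ R, ind (g j) x) v := by
  classical
  set T := R.filter fun j => g j ≠ 0 with hT
  have hy' : y ∈ Submodule.span (ZMod 3) (g '' (T : Set (Fin n))) := by
    refine (Submodule.span_le.2 ?_) hy
    rintro _ ⟨j, hj, rfl⟩
    by_cases h0 : g j = 0
    · rw [h0]; exact Submodule.zero_mem _
    · exact Submodule.subset_span ⟨j, by simp [hT]; exact ⟨hj, h0⟩, rfl⟩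
  have ha : (fun x => ∑ j ∈ R, ind (g j) x) = fun x => ∑ j ∈ T, ind (g j) x := by
    funext x
    rw [hT, Finset.sum_filter]
    refine Finset.sum_congr rfl fun j _ => ?_
    by_cases h0 : g j = 0 <;> simp [h0, ind_zero]
  rw [ha]
  by_cases h3 : 3 ≤ T.card
  · have : ∑ x, ∑ j ∈ T, ind (g j) x = T.card := by
      rw [Finset.sum_comm, Finset.card_eq_sum_ones]
      refine Finset.sum_congr rfl fun j hj => ?_
      rw [sum_ind, if_neg (Finset.mem_filter.1 hj).2]
    simp only [Phi]; omega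
  · have : T.card = 0 ∨ T.card = 1 ∨ T.card = 2 := by omega
    rcases this with h | h | h
    · rw [Finset.card_eq_zero] at h
      rw [h] at hy' ⊢
      simp at hy'
      have := pair 0 0 0 0 v (by simpa [hy'] using hv)
      simpa [ind_zero] using this
    · obtain ⟨a, h⟩ := Finset.card_eq_one.1 h
      rw [h] at hy' ⊢
      simp only [Finset.coe_singleton, Set.image_singleton, Submodule.mem_span_singleton] at hy'
      obtain ⟨c, rfl⟩ := hy'
      have := pair c 0 (g a) 0 v (by simpa using hv)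
      simpa [ind_zero] using this
    · obtain ⟨a, b, hab, h⟩ := Finset.card_eq_two.1 h
      rw [h] at hy' ⊢
      simp only [Finset.coe_insert, Finset.coe_singleton, Set.image_insert_eq, Set.image_singleton,
        Submodule.mem_span_pair] at hy'
      obtain ⟨c, d, rfl⟩ := hy'
      have := pair c d (g a) (g b) v hv
      simpa [Finset.sum_pair hab] using this

theorem dsum {n t : ℕ} (R : Fin t → Finset (Fin n)) (h : ∀ i i', i ≠ i' → Disjoint (R i) (R i'))
    (f : Fin n → ℕ) : ∑ i, ∑ j ∈ R i, f j ≤ ∑ j, f j := by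
  rw [← Finset.sum_biUnion (fun i _ i' _ hi => h i i' hi)]
  exact Finset.sum_le_sum_of_subset (Finset.subset_univ _)

theorem sumA {t : ℕ} (a b c : Fin t → ℕ) (x y z : ℕ) (ha : ∑ i, a i ≤ x) (hb : ∑ i, b i ≤ y)
    (hc : ∑ i, c i ≤ z) : ∑ i, A (a i) (b i) (c i) ≤ A x y z := by
  have h1 : ∑ i, 2 * A (a i) (b i) (c i) ≤ ∑ i, (a i + b i + c i) :=
    Finset.sum_le_sum fun i _ => (A_le _ _ _).1
  have h2 : ∑ i, A (a i) (b i) (c i) ≤ ∑ i, (a i + b i) :=
    Finset.sum_le_sum fun i _ => (A_le _ _ _).2.1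
  have h3 : ∑ i, A (a i) (b i) (c i) ≤ ∑ i, (a i + c i) :=
    Finset.sum_le_sum fun i _ => (A_le _ _ _).2.2.1
  have h4 : ∑ i, A (a i) (b i) (c i) ≤ ∑ i, (b i + c i) :=
    Finset.sum_le_sum fun i _ => (A_le _ _ _).2.2.2
  simp only [Finset.sum_add_distrib, ← Finset.mul_sum] at h1 h2 h3 h4
  apply le_A <;> omega

theorem lower {n : ℕ} (hn : n ≤ 13) (G : Matrix (Fin 3) (Fin n) (ZMod 3)) (hr : G.rank = 3)
    (hP : PIR G 7) : False := by
  classical
  have htop : Submodule.span (ZMod 3) (Set.range G.col) = ⊤ := by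
    apply Submodule.eq_top_of_finrank_eq
    rw [← Matrix.rank_eq_finrank_span_cols, hr]; simp
  have key : ∀ (i : Fin 13) (S : Set V) (y : V), y ∈ Submodule.span (ZMod 3) S →
      (∀ u ∈ S, W i ⬝ᵥ u = 0) → W i ⬝ᵥ y = 0 := by
    intro i S y hy hS
    induction hy using Submodule.span_induction with
    | mem x hx => exact hS x hx
    | zero => simp
    | add x y _ _ hx hy => rw [dotProduct_add, hx, hy, add_zero]
    | smul a x _ hx => rw [dotProduct_smul, hx, smul_zero]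
  refine fun_check (fun x => ∑ j, ind (G.col j) x) _ rfl ?_ ?_ ?_
  · rw [Finset.sum_comm]
    calc _ ≤ ∑ _j : Fin n, 1 := Finset.sum_le_sum fun j _ => by rw [sum_ind]; split_ifs <;> simp
      _ ≤ 13 := by simpa using hn
  · intro i
    obtain ⟨j0, hj0⟩ : ∃ j0, W i ⬝ᵥ G.col j0 ≠ 0 := by
      by_contra hh
      push Not at hh
      obtain ⟨e, he⟩ := W_ne i
      exact he (key i _ _ (by rw [htop]; trivial) (by rintro _ ⟨j, rfl⟩; exact hh j))
    obtain ⟨R, hd, hR⟩ := hP j0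
    have h1 : ∀ k, 1 ≤ ∑ j ∈ R k, off i (G.col j) := fun k => by
      by_contra hh
      apply hj0
      refine key i _ _ (hR k) ?_
      rintro _ ⟨j, hj, rfl⟩
      have : ∑ j ∈ R k, off i (G.col j) = 0 := by omega
      have := Finset.sum_eq_zero_iff.1 this j hj
      unfold off at this
      by_contra h2
      simp [h2] at this
    have h2 := dsum R hd fun j => off i (G.col j)
    have h3 : ∑ _k : Fin 7, 1 ≤ ∑ k, ∑ j ∈ R k, off i (G.col j) := Finset.sum_le_sum fun k _ => h1 k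
    have h4 := Finset.sum_le_sum (s := Finset.univ) fun j _ => off_le i (G.col j)
    simp only [Finset.sum_add_distrib] at h4
    rw [Finset.sum_comm]
    simp at h3
    omega
  · intro v hv
    obtain ⟨j0, -, hj0⟩ := Finset.exists_ne_zero_of_sum_ne_zero hv
    have hc : cl (G.col j0) = v.val := by
      by_contra h2; simp [ind, h2] at hj0
    obtain ⟨R, hd, hR⟩ := hP j0
    have h1 := fun k => small G.col (R k) _ v (hR k) hc
    have h3 : ∑ _k : Fin 7, 3 ≤ _ := Finset.sum_le_sum (s := Finset.univ) fun k _ => h1 k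
    have hx := fun x => dsum R hd fun j => ind (G.col j) x
    simp only [Phi, Finset.sum_add_distrib, ← Finset.mul_sum] at h3
    have e1 := sumA _ _ _ _ _ _ (hx (v + 1)) (hx (v + 3)) (hx (v + 9))
    have e2 := sumA _ _ _ _ _ _ (hx (v + 12)) (hx (v + 2)) (hx (v + 8))
    have e3 := sumA _ _ _ _ _ _ (hx (v + 10)) (hx (v + 11)) (hx (v + 6))
    have e4 := sumA _ _ _ _ _ _ (hx (v + 4)) (hx (v + 5)) (hx (v + 7))
    have e5 := hx v
    have e6 : ∑ k, ∑ x, ∑ j ∈ R k, ind (G.col j) x ≤ ∑ x, ∑ j, ind (G.col j) x := by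
      rw [Finset.sum_comm]; exact Finset.sum_le_sum fun x _ => hx x
    simp at h3
    omega

theorem rank3 {n : ℕ} (G : Matrix (Fin 3) (Fin n) (ZMod 3)) (H : Matrix (Fin n) (Fin 3) (ZMod 3))
    (h : G * H = 1) : G.rank = 3 := by
  apply le_antisymm (by simpa using G.rank_le_height)
  have := Matrix.rank_mul_le_left G H
  rw [h] at this
  simpa using this

theorem Batch.pir {n t : ℕ} {G : Matrix (Fin 3) (Fin n) (ZMod 3)} (h : Batch G t) : PIR G t :=
  fun j => h fun _ => j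

def G21 : Matrix (Fin 3) (Fin 21) (ZMod 3) := fun i j => if j.val % 3 = i.val then 1 else 0

theorem b21 : Batch G21 7 := by
  intro c
  refine ⟨fun i => {⟨3 * i.val + (c i).val % 3, by omega⟩}, fun i i' h => ?_, fun i => ?_⟩
  · simp only [Finset.disjoint_singleton, ne_eq, Fin.mk.injEq]
    intro h2; apply h; ext; omega
  · apply Submodule.subset_span
    refine ⟨_, Finset.mem_coe.2 (Finset.mem_singleton_self _), ?_⟩
    ext r; simp [G21]

theorem r21 : G21.rank = 3 :=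
  rank3 _ (fun j i => if j.val = i.val then 1 else 0) (by decide +kernel)

def G4 : Matrix (Fin 3) (Fin 4) (ZMod 3) := !![1, 0, 0, 1; 0, 1, 0, 1; 0, 0, 1, 1]

theorem r4 : G4.rank = 3 := rank3 _ !![1, 0, 0; 0, 1, 0; 0, 0, 1; 0, 0, 0] (by decide +kernel)

theorem b4 : Batch G4 2 := by
  intro c
  have h : ∀ a : Fin 4, ∃ x y z : ZMod 3,
      G4.col a = x • G4.col (a + 1) + y • G4.col (a + 2) + z • G4.col (a + 3) := by decide +kernel
  have hd : ∀ a : Fin 4, Disjoint ({a} : Finset (Fin 4)) {a + 1, a + 2, a + 3} := by decide +kernel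
  by_cases h01 : c 0 = c 1
  · refine ⟨![{c 0}, {c 0 + 1, c 0 + 2, c 0 + 3}], ?_, ?_⟩
    · simp only [Fin.forall_fin_two]
      exact ⟨⟨fun h => absurd rfl h, fun _ => hd _⟩, fun _ => (hd _).symm, fun h => absurd rfl h⟩
    · simp only [Fin.forall_fin_two]
      refine ⟨Submodule.subset_span ⟨c 0, by simp, rfl⟩, ?_⟩
      obtain ⟨x, y, z, e⟩ := h (c 0)
      rw [← h01, e]
      refine add_mem (add_mem ?_ ?_) ?_ <;>
        exact Submodule.smul_mem _ _ (Submodule.subset_span ⟨_, by simp, rfl⟩)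
  · refine ⟨fun i => {c i}, ?_, fun i => Submodule.subset_span ⟨c i, by simp, rfl⟩⟩
    simp only [Fin.forall_fin_two]
    exact ⟨⟨fun h => absurd rfl h, fun _ => by simpa using h01⟩,
      fun _ => by simpa using Ne.symm h01, fun h => absurd rfl h⟩

def G9 : Matrix (Fin 3) (Fin 9) (ZMod 3) :=
  !![1, 1, 1, 1, 1, 1, 1, 1, 1; 0, 0, 0, 1, 1, 1, 2, 2, 2; 0, 1, 2, 0, 1, 2, 0, 1, 2]

theorem r9 : G9.rank = 3 := rank3 _
  !![1, 2, 2; 0, 0, 1; 0, 0, 0; 0, 1, 0; 0, 0, 0; 0, 0, 0; 0, 0, 0; 0, 0, 0; 0, 0, 0]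
  (by decide +kernel)

def cand : Fin 9 → List (Fin 9 × Fin 9) :=
  ![[(0, 0), (1, 2), (3, 6), (4, 8), (5, 7)], [(1, 1), (0, 2), (3, 8), (4, 7), (5, 6)],
    [(2, 2), (0, 1), (3, 7), (4, 6), (5, 8)], [(3, 3), (0, 6), (1, 8), (2, 7), (4, 5)],
    [(4, 4), (0, 8), (1, 7), (2, 6), (3, 5)], [(5, 5), (0, 7), (1, 6), (2, 8), (3, 4)],
    [(6, 6), (0, 3), (1, 5), (2, 4), (7, 8)], [(7, 7), (0, 5), (1, 4), (2, 3), (6, 8)],
    [(8, 8), (0, 4), (1, 3), (2, 5), (6, 7)]]

def dj (p q : Fin 9 × Fin 9) : Bool := p.1 != q.1 && p.1 != q.2 && p.2 != q.1 && p.2 != q.2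

theorem dj_spec : ∀ p q : Fin 9 × Fin 9, dj p q = true →
    Disjoint ({p.1, p.2} : Finset (Fin 9)) {q.1, q.2} := by
  intro p q h
  simp only [dj, Bool.and_eq_true, bne_iff_ne, ne_eq] at h
  simp [Ne.symm h.1.1.1, Ne.symm h.1.1.2,
    Ne.symm h.1.2, Ne.symm h.2]

theorem cand_spec : ∀ v, ∀ p ∈ cand v, G9.col v = (2 : ZMod 3) • G9.col p.1 + (2 : ZMod 3) • G9.col p.2 := by
  decide +kernel

theorem search : ∀ a b : Fin 9, a ≤ b → ∀ c, b ≤ c → ∀ d, c ≤ d → ∀ e, d ≤ e →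
    ((cand a).any fun p => (cand b).any fun q => dj p q && (cand c).any fun r =>
      dj p r && dj q r && (cand d).any fun s => dj p s && dj q s && dj r s &&
        (cand e).any fun u => dj p u && dj q u && dj r u && dj s u) = true := by
  decide +kernel

theorem b9 : Batch G9 5 := by
  intro c
  set σ := Tuple.sort c
  have hm := Tuple.monotone_sort c
  have := search (c (σ 0)) (c (σ 1)) (hm (by decide)) (c (σ 2)) (hm (by decide))
    (c (σ 3)) (hm (by decide)) (c (σ 4)) (hm (by decide))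
  simp only [List.any_eq_true, Bool.and_eq_true] at this
  obtain ⟨p, hp, q, hq, pq, r, hr, ⟨pr, qr⟩, s, hs, ⟨⟨ps, qs⟩, rs⟩, u, hu, ⟨⟨pu, qu⟩, ru⟩, su⟩ := this
  let P : Fin 5 → Fin 9 × Fin 9 := ![p, q, r, s, u]
  have hP : ∀ i, P i ∈ cand (c (σ i)) := by
    intro i; fin_cases i
    exacts [hp, hq, hr, hs, hu]
  have hD : ∀ i i', i < i' → dj (P i) (P i') = true := by
    intro i i' h; fin_cases i <;> fin_cases i' <;> first | exact absurd h (by decide) | skip
    exacts [pq, pr, ps, pu, qr, qs, qu, rs, ru, su]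
  refine ⟨fun i => {(P (σ.symm i)).1, (P (σ.symm i)).2}, fun i i' h => ?_, fun i => ?_⟩
  · have : σ.symm i ≠ σ.symm i' := σ.symm.injective.ne h
    rcases lt_or_gt_of_ne this with h | h
    · exact dj_spec _ _ (hD _ _ h)
    · exact (dj_spec _ _ (hD _ _ h)).symm
  · have := cand_spec _ _ (hP (σ.symm i))
    rw [Equiv.apply_symm_apply] at this
    show G9.col (c i) ∈ _
    rw [this]
    refine add_mem ?_ ?_ <;>
      exact Submodule.smul_mem _ _ (Submodule.subset_span ⟨_, by simp, rfl⟩)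

end H11.Asp

open H11.Asp in
theorem Pool.Agent.Results.MP_821f63_lc.Ternary.result :
    ASP (ZMod 3) 3 5 + ASP (ZMod 3) 3 2 < ASP (ZMod 3) 3 (5 + 2) ∧
    ASB (ZMod 3) 3 5 + ASB (ZMod 3) 3 2 < ASB (ZMod 3) 3 (5 + 2) := by
  have p5 : ASP (ZMod 3) 3 5 ≤ 9 := Nat.sInf_le ⟨G9, r9, b9.pir⟩
  have p2 : ASP (ZMod 3) 3 2 ≤ 4 := Nat.sInf_le ⟨G4, r4, b4.pir⟩
  have q5 : ASB (ZMod 3) 3 5 ≤ 9 := Nat.sInf_le ⟨G9, r9, b9⟩
  have q2 : ASB (ZMod 3) 3 2 ≤ 4 := Nat.sInf_le ⟨G4, r4, b4⟩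
  have p7 : 13 < ASP (ZMod 3) 3 7 := by
    by_contra h
    obtain ⟨G, hr, hG⟩ := Nat.sInf_mem
      (s := {n | ∃ G : Matrix (Fin 3) (Fin n) (ZMod 3), G.rank = 3 ∧ PIR G 7}) ⟨21, G21, r21, b21.pir⟩
    exact lower (not_lt.1 h) G hr hG
  have q7 : 13 < ASB (ZMod 3) 3 7 := by
    by_contra h
    obtain ⟨G, hr, hG⟩ := Nat.sInf_mem
      (s := {n | ∃ G : Matrix (Fin 3) (Fin n) (ZMod 3), G.rank = 3 ∧ Batch G 7}) ⟨21, G21, r21, b21⟩
    exact lower (not_lt.1 h) G hr hG.pir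
  constructor <;> norm_num <;> omega
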